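import Pool.Agent.Lib.MP_7216ee_lc.Defs
import Pool.Agent.Lib.MP_7216ee_lc.Four
import Pool.Agent.Lib.MP_7216ee_lc.Five

/-!
The complete graph scenario `K_n` is Shannon-complete exactly when `n ≤ 4`.

For `n ≥ 5` the inequality
`-2 H(A) - 2 H(B) - H(C) - 5 H(E) - 2 H(AB) + 3 H(AC) + 3 H(BC) + H(AD) + H(BD) - H(CD)
 - 4 H(CE) - H(DE) + 5 H(AE) + 5 H(BE) ≥ 0`
holds for all discrete random variables of finite entropy (it is the Zhang-Yeung inequality,
with the joint entropies `H(ABC)`, `H(ABD)` replaced by `H(CE)`, `H(DE)` and a penalty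
`5 (H(AE) + H(BE) - H(E) - H(AB))`), but fails for a polymatroid on five indices.
-/

namespace Pool.Agent.Results.MP_7216ee_lc.CompleteGraph

open Pool.Agent.MP7216ee

theorem result (n : ℕ) : ShannonComplete (completeGraph n) ↔ n ≤ 4 := by
  constructor
  · intro h
    by_contra hn
    exact not_completeGraph_five (completeGraph_mono (by omega) h)
  · intro hn
    exact completeGraph_mono hn completeGraph_four_complete

end Pool.Agent.Results.MP_7216ee_lc.CompleteGraph
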